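import Pool.Agent.Helper73.LL.Goals

/-! Packet LL-DBL: the average overlap of a subspace with its translates. -/

namespace Pool.Agent.Helper96.LL

open Matrix Equiv Pool.Agent.Helper15.An Pool.Agent.Helper6.W Pool.Agent.Helper73.LL
open scoped ComplexOrder

section mat
variable {d : Type} [Fintype d] [DecidableEq d]

theorem topP_sq {T : Matrix d d ℂ} (hT : T.IsHermitian) (θ : ℝ) :
    topP hT θ * topP hT θ = topP hT θ := by
  unfold topP
  rw [Matrix.mul_assoc, ← Matrix.mul_assoc ((topIso hT θ)ᴴ), topIso_conj_mul, Matrix.one_mul]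

theorem topP_psd {T : Matrix d d ℂ} (hT : T.IsHermitian) (θ : ℝ) : (topP hT θ).PosSemidef :=
  posSemidef_self_mul_conjTranspose _

theorem topP_trace {T : Matrix d d ℂ} (hT : T.IsHermitian) (θ : ℝ) :
    (trace (topP hT θ)).re = Fintype.card (TopIdx hT θ) := by
  unfold topP
  rw [trace_topIso]
  simp

/-- trace of a product with a projection -/
theorem trace_mul_proj {A P : Matrix d d ℂ} (hA : A.PosSemidef) (hP : P.IsHermitian)
    (hPP : P * P = P) : 0 ≤ (trace (A * P)).re := by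
  have h1 : (P * A * Pᴴ).PosSemidef := hA.mul_mul_conjTranspose_same P
  have h2 : trace (P * A * Pᴴ) = trace (A * P) := by
    rw [hP.eq, Matrix.trace_mul_comm, ← Matrix.mul_assoc, hPP, Matrix.trace_mul_comm]
  have h3 := h1.trace_nonneg
  rw [h2] at h3
  exact (Complex.le_def.1 h3).1

theorem ovc_le {P u : Matrix d d ℂ} (hP : P.IsHermitian) (hP1 : P.PosSemidef) (hPP : P * P = P)
    (hu : u * uᴴ = 1) : (ovc u hP : ℝ) ≤ 4 * (trace ((uᴴ * P * u) * P)).re := by
  have hG := ovM_isHermitian u hP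
  have hQ : (uᴴ * P * u).IsHermitian := by
    unfold Matrix.IsHermitian
    simp only [conjTranspose_mul, conjTranspose_conjTranspose, hP.eq, Matrix.mul_assoc]
  have hQQ : (uᴴ * P * u) * (uᴴ * P * u) = uᴴ * P * u := by
    calc (uᴴ * P * u) * (uᴴ * P * u) = uᴴ * (P * (u * uᴴ) * P) * u := by
          simp only [Matrix.mul_assoc]
      _ = uᴴ * P * u := by rw [hu, Matrix.mul_one, hPP]
  have hG1 : (ovM P u).PosSemidef := by
    unfold ovM
    have := hP1.mul_mul_conjTranspose_same (uᴴ * P * u)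
    rwa [hQ.eq] at this
  have htr : trace (ovM P u) = trace ((uᴴ * P * u) * P) := by
    unfold ovM
    rw [Matrix.trace_mul_comm, ← Matrix.mul_assoc, hQQ]
  have h1 : (trace (ovM P u)).re = ∑ i, hG.eigenvalues i := by
    rw [hG.trace_eq_sum_eigenvalues]
    simp
  rw [← htr, h1]
  have h2 : (ovc u hP : ℝ) * (1 / 4) ≤ ∑ i, hG.eigenvalues i := by
    rw [← nsmul_eq_mul]
    refine (Finset.card_nsmul_le_sum _ (fun i => hG.eigenvalues i) _
      fun i hi => (Finset.mem_filter.1 hi).2).trans ?_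
    exact Finset.sum_le_sum_of_subset_of_nonneg (Finset.filter_subset _ _)
      fun i _ _ => hG1.eigenvalues_nonneg i
  linarith

end mat

theorem dbl : S_DBL := by
  classical
  intro n D ρ hρ hn T hT θ
  set P := topP hT θ with hPdef
  have hP : P.IsHermitian := topP_isHermitian hT θ
  have hP1 : P.PosSemidef := topP_psd hT θ
  have hPP : P * P = P := topP_sq hT θ
  set R : ℝ := (Fintype.card (TopIdx hT θ) : ℝ) with hR
  have hunit : ∀ g, ρ g * (ρ g)ᴴ = 1 := fun g => mul_eq_one_comm.1 (hρ.unit g)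
  have h1 : ∀ y : Alt n, (ovc (ρ (y : Perm (Fin n))) (topP_isHermitian hT θ) : ℝ) ≤
      4 * (trace (((ρ (y : Perm (Fin n)))ᴴ * P * ρ (y : Perm (Fin n))) * P)).re :=
    fun y => ovc_le hP hP1 hPP (hunit _)
  refine (Finset.sum_le_sum fun y _ => h1 y).trans ?_
  rw [← Finset.mul_sum]
  have h2 : ∑ y : Alt n, (trace (((ρ (y : Perm (Fin n)))ᴴ * P * ρ (y : Perm (Fin n))) * P)).re =
      (trace ((∑ y : Alt n, (ρ (y : Perm (Fin n)))ᴴ * P * ρ (y : Perm (Fin n))) * P)).re := by
    rw [Finset.sum_mul, Matrix.trace_sum, Complex.re_sum]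
  rw [h2]
  have h3 := design hρ (Alt n) (card_Alt hn) P hP1
  have h4 := trace_mul_proj h3 hP hPP
  rw [Matrix.sub_mul, Matrix.trace_sub, Complex.sub_re, Matrix.smul_mul, Matrix.one_mul,
    Matrix.trace_smul, Complex.smul_re, topP_trace, Fintype.card_fin, smul_eq_mul] at h4
  have hD : (0 : ℝ) < D := by exact_mod_cast hρ.pos
  have h5 : 2 * (Fintype.card (Alt n) : ℝ) * R / D * R =
      2 * Fintype.card (Alt n) * R ^ 2 / D := by
    field_simp
  have h6 : 8 * (Fintype.card (Alt n) : ℝ) * R ^ 2 / D =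
      4 * (2 * Fintype.card (Alt n) * R ^ 2 / D) := by
    ring
  rw [h6]
  rw [h5] at h4
  linarith

end Pool.Agent.Helper96.LL
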